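import Pool.Graph.R_seed8.Results.MP_577350_an.PalaisSmale

/-!
# The Palais-Smale property of the mean-field functional without a bound on the energies
-/

open MeasureTheory Set Filter Topology

noncomputable section

namespace Pool.Agent.H10.PS

open Pool.Agent.W787.PS
open Pool.Agent.W787.PS.Geo (fn)
open Pool.Agent.W605.PS (step)

/-- From smooth sequences to `H¹`, without the convergence of the energies. -/
theorem sub_of_smooth {M : Type} [TopologicalSpace M] [CompactSpace M] [MeasurableSpace M]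
    [BorelSpace M] (G : Geo M) (h : M → ℝ) (lam : ℝ) (hE : EXA G) (hA : APX G)
    (hc : Continuous h) (hpos : ∀ x, 0 < h x) (hD : DER G h lam) (hPS : PSSg G h lam)
    (U : ℕ → G.H1) (hU : ∀ n, ∫ x, h x * Real.exp (G.toL2 (U n) x) ∂G.vol = 1)
    (hder : Tendsto (fun n => fderiv ℝ (G.J h lam) (U n)) atTop (𝓝 0)) :
    ∃ (V : G.H1) (φ : ℕ → ℕ), StrictMono φ ∧ Tendsto (fun k => U (φ k)) atTop (𝓝 V) := by
  have h0 : S_H1Z := Asm.t_h1z
  have hst : ∀ n : ℕ, ∃ v : G.SmH, ‖(v : G.H1) - U n‖ ≤ 2 * (1 / ((n : ℝ) + 1)) ∧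
      PSg G h lam (‖fderiv ℝ (G.J h lam) (U n)‖ + 1 / ((n : ℝ) + 1)) (fn v) := fun n =>
    step h0 G h lam hE hA hc hD (U n) (hU n) _ (by positivity)
  choose v hv1 hv2 using hst
  have ht1 : Tendsto (fun n : ℕ => 1 / ((n : ℝ) + 1)) atTop (𝓝 0) :=
    tendsto_one_div_add_atTop_nhds_zero_nat
  have ht2 : Tendsto (fun n : ℕ => ‖fderiv ℝ (G.J h lam) (U n)‖ + 1 / ((n : ℝ) + 1))
      atTop (𝓝 0) := by
    have h1 : Tendsto (fun n : ℕ => ‖fderiv ℝ (G.J h lam) (U n)‖) atTop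
        (𝓝 ‖(0 : G.H1 →L[ℝ] ℝ)‖) :=
      ((continuous_norm (E := G.H1 →L[ℝ] ℝ)).tendsto 0).comp hder
    have h10 : ‖(0 : G.H1 →L[ℝ] ℝ)‖ = 0 := ContinuousLinearMap.opNorm_zero
    rw [h10] at h1
    have := h1.add ht1
    simpa using this
  set 𝒰 : Ultrafilter ℕ := hyperfilter ℕ with h𝒰
  have hle : (𝒰 : Filter ℕ) ≤ atTop := by
    rw [h𝒰]
    exact Nat.hyperfilter_le_atTop
  have hPS2 := hPS 𝒰 (fun n => fn (v n)) (by
    intro ε hε
    have h1 : ∀ᶠ n in (atTop : Filter ℕ),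
        ‖fderiv ℝ (G.J h lam) (U n)‖ + 1 / ((n : ℝ) + 1) < ε := ht2.eventually_lt_const hε
    filter_upwards [hle h1] with n hn
    obtain ⟨p1, p2, p3⟩ := hv2 n
    exact ⟨p1, p2, fun φ hφ => (p3 φ hφ).trans
      (mul_le_mul_of_nonneg_right hn.le (Real.sqrt_nonneg _))⟩)
  -- Cauchy along the ultrafilter
  have hcau : Cauchy (map (fun n => ((v n : G.SmH) : G.H1)) (𝒰 : Filter ℕ)) := by
    rw [Metric.cauchy_iff]
    refine ⟨inferInstance, fun ε hε => ?_⟩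
    obtain ⟨T, hT, hT2⟩ := hPS2 ((ε / 2) ^ 2) (by positivity)
    refine ⟨(fun n => ((v n : G.SmH) : G.H1)) '' T, image_mem_map hT, ?_⟩
    rintro _ ⟨n, hn, rfl⟩ _ ⟨m, hm, rfl⟩
    have h1 := hT2 n hn m hm
    have h2 : ‖(((v n - v m : G.SmH)) : G.H1)‖ ^ 2 ≤ (ε / 2) ^ 2 := by
      rw [(h0 M G).2.2.1]
      exact h1
    have h3 : ‖(((v n - v m : G.SmH)) : G.H1)‖ ≤ ε / 2 :=
      (abs_le_of_sq_le_sq' h2 (by positivity)).2
    simp only []
    rw [dist_eq_norm, ← UniformSpace.Completion.coe_sub]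
    linarith
  obtain ⟨V, hV⟩ := cauchy_map_iff_exists_tendsto.1 hcau
  have hV2 : Tendsto U (𝒰 : Filter ℕ) (𝓝 V) := by
    have h1 : Tendsto (fun n => ((v n : G.SmH) : G.H1) - U n) (𝒰 : Filter ℕ) (𝓝 0) := by
      have h2 : Tendsto (fun n : ℕ => 2 * (1 / ((n : ℝ) + 1))) (𝒰 : Filter ℕ) (𝓝 0) := by
        have := (ht1.const_mul 2).mono_left hle
        simpa using this
      exact squeeze_zero_norm hv1 h2
    have h3 := hV.sub h1
    simpa using h3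
  have hcl : MapClusterPt V atTop U := mapClusterPt_iff_ultrafilter.2 ⟨𝒰, hle, hV2⟩
  obtain ⟨ψ, hψ1, hψ2⟩ := hcl.tendsto_subseq
  exact ⟨V, ψ, hψ1, hψ2⟩

/-- The assembly in the completion of the smooth functions. -/
theorem geo_sub (M : Type) [TopologicalSpace M]
    [T2Space M] [CompactSpace M] [ConnectedSpace M] [MeasurableSpace M] [BorelSpace M]
    (X : RiemSurface M) (h : M → ℝ) (lam : ℝ) (hh : X.Smooth h) (hpos : ∀ x, 0 < h x)
    (hlam : 0 < lam) (hN : ∀ k : ℕ, lam ≠ 8 * Real.pi * k)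
    (U : ℕ → X.geo.H1) (hU : ∀ n, ∫ x, h x * Real.exp (X.geo.toL2 (U n) x) ∂X.geo.vol = 1)
    (hder : Tendsto (fun n => fderiv ℝ (X.geo.J h lam) (U n)) atTop (𝓝 0)) :
    ∃ (V : X.geo.H1) (φ : ℕ → ℕ), StrictMono φ ∧ Tendsto (fun k => U (φ k)) atTop (𝓝 V) := by
  have hpss : S_PSS := Results.MP_577350_an.PalaisSmale.pss_all
  have hisog : S_ISOG := Results.MP_577350_an.PalaisSmale.isog_all
  have hEX : EXA X.geo := Asm.exa_all hisog M X
  obtain ⟨Y, hv, hS, hg⟩ := hisog M X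
  have hAP : APX X.geo := Asm.t_h1b M X.geo hEX
  have hc : Continuous h := X.smooth_cont hh
  have hDE : DER X.geo h lam := Asm.t_h1c M X.geo h lam hEX hc hpos
  refine sub_of_smooth X.geo h lam hEX hAP hc hpos hDE ?_ U hU hder
  intro 𝒰 u hu ε hε
  have key : ∀ ε : ℝ, 0 < ε → ∀ᶠ n in (𝒰 : Filter ℕ), PSb Y h lam ε (u n) := by
    intro ε hε
    filter_upwards [hu ε hε] with n hn
    obtain ⟨h1, h2, h3⟩ := hn
    have h1' : X.Smooth (u n) := h1
    refine ⟨(hS _).2 h1', ?_, ?_⟩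
    · rw [hv]; exact h2
    · intro φ hφ
      have hφ' : X.Smooth φ := (hS φ).1 hφ
      have := h3 φ hφ'
      rw [Asm.dir_tr hv hg h1' hφ', Asm.h1sq_tr hv hg hφ'] at this
      rw [hv]; exact this
  obtain ⟨T, hT, H⟩ := hpss M Y h lam ((hS h).2 hh) hpos hlam hN 𝒰 u key ε hε
  have hg0 : ∀ᶠ n in (𝒰 : Filter ℕ), X.Smooth (u n) := by
    filter_upwards [hu 1 one_pos] with n hn using hn.1
  refine ⟨T ∩ {n | X.Smooth (u n)}, Filter.inter_mem hT hg0, ?_⟩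
  intro n hn m hm
  have hs : X.Smooth (fun x => u n x - u m x) := X.S.sub_mem hn.2 hm.2
  rw [Asm.h1sq_tr hv hg hs]
  exact H n hn.1 m hm.1

end Pool.Agent.H10.PS
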