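import Pool.Agent.H10.PS.NE

/-!
# Closedness of the critical set, compactness, and the transfer to every model of H1
-/

open MeasureTheory Set Filter Topology

noncomputable section

namespace Pool.Agent.H10.PS

open Pool.Agent.W787.PS
open Pool.Agent.W787.PS.Geo (fn)

section Geo

variable {M : Type} [TopologicalSpace M] [CompactSpace M] [MeasurableSpace M] [BorelSpace M]
  (G : Geo M)

theorem integrable_weight (hE : EXA G) {h : M → ℝ} (hc : Continuous h) (U : G.H1) :
    Integrable (fun x => h x * Real.exp (G.toL2 U x)) G.vol := by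
  have h3 : Integrable (fun x => Real.exp (G.toL2 U x)) G.vol := by
    refine (hE.2.2 U 1).mono' ?_ (Eventually.of_forall fun x => ?_)
    · exact Real.continuous_exp.comp_aestronglyMeasurable (Lp.aestronglyMeasurable _)
    · rw [Real.norm_eq_abs, abs_of_pos (Real.exp_pos _), one_mul]
      exact Real.exp_le_exp.2 (le_abs_self _)
  obtain ⟨C, hC⟩ := (isCompact_range hc.norm).bddAbove
  exact h3.bdd_mul hc.aestronglyMeasurable (Eventually.of_forall fun x => hC ⟨x, rfl⟩)

theorem integral_weight_pos (hE : EXA G) {h : M → ℝ} (hc : Continuous h) (hpos : ∀ x, 0 < h x)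
    (U : G.H1) : 0 < ∫ x, h x * Real.exp (G.toL2 U x) ∂G.vol := by
  rw [integral_pos_iff_support_of_nonneg
    (fun x => (mul_pos (hpos x) (Real.exp_pos _)).le) (integrable_weight G hE hc U)]
  have : Function.support (fun x => h x * Real.exp (G.toL2 U x)) = univ := by
    ext x
    simp [(hpos x).ne']
  rw [this, G.vol_univ]
  exact one_pos

theorem continuous_mean : Continuous fun U : G.H1 => ∫ x, G.toL2 U x ∂G.vol := by
  haveI : IsFiniteMeasure G.vol := ⟨by rw [G.vol_univ]; exact ENNReal.one_lt_top⟩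
  set o : Lp ℝ 2 G.vol := (memLp_const (1 : ℝ)).toLp (fun _ => (1 : ℝ)) with ho
  have e : ∀ U : G.H1, ∫ x, G.toL2 U x ∂G.vol = inner ℝ o (G.toL2 U) := by
    intro U
    rw [L2.inner_def]
    refine integral_congr_ae ?_
    filter_upwards [MemLp.coeFn_toLp (memLp_const (μ := G.vol) (p := 2) (1 : ℝ))] with x hx
    rw [ho, hx]
    simp
  simp_rw [e]
  exact continuous_const.inner G.toL2.continuous

/-- the quotient of two weighted exponential integrals is continuous -/
theorem continuous_quot (hE : EXA G) {h h' : M → ℝ} {lam : ℝ} (hlam : lam ≠ 0)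
    (hc : Continuous h) (hpos : ∀ x, 0 < h x) (hc' : Continuous h') (hpos' : ∀ x, 0 < h' x)
    (hd : Continuous (G.J h lam)) (hd' : Continuous (G.J h' lam)) :
    Continuous fun U : G.H1 => (∫ x, h' x * Real.exp (G.toL2 U x) ∂G.vol) /
      (∫ x, h x * Real.exp (G.toL2 U x) ∂G.vol) := by
  have e : (fun U : G.H1 => (∫ x, h' x * Real.exp (G.toL2 U x) ∂G.vol) /
      (∫ x, h x * Real.exp (G.toL2 U x) ∂G.vol)) =
      fun U => Real.exp ((G.J h lam U - G.J h' lam U) / lam) := by
    funext U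
    have p := integral_weight_pos G hE hc hpos U
    have p' := integral_weight_pos G hE hc' hpos' U
    have e2 : (G.J h lam U - G.J h' lam U) / lam =
        Real.log (∫ x, h' x * Real.exp (G.toL2 U x) ∂G.vol) -
        Real.log (∫ x, h x * Real.exp (G.toL2 U x) ∂G.vol) := by
      unfold Geo.J
      field_simp
      ring
    rw [e2, Real.exp_sub, Real.exp_log p, Real.exp_log p']
  rw [e]
  exact Real.continuous_exp.comp ((hd.sub hd').div_const lam)

theorem continuous_weight (hE : EXA G) {h : M → ℝ} {lam : ℝ} (hlam : lam ≠ 0)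
    (hc : Continuous h) (hpos : ∀ x, 0 < h x) (hd : Continuous (G.J h lam)) :
    Continuous fun U : G.H1 => ∫ x, h x * Real.exp (G.toL2 U x) ∂G.vol := by
  have e : (fun U : G.H1 => ∫ x, h x * Real.exp (G.toL2 U x) ∂G.vol) =
      fun U => Real.exp ((1 / 2 * (‖U‖ ^ 2 - ‖G.toL2 U‖ ^ 2)
        + lam * (∫ x, G.toL2 U x ∂G.vol) - G.J h lam U) / lam) := by
    funext U
    have p := integral_weight_pos G hE hc hpos U
    have e2 : (1 / 2 * (‖U‖ ^ 2 - ‖G.toL2 U‖ ^ 2)
        + lam * (∫ x, G.toL2 U x ∂G.vol) - G.J h lam U) / lam =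
        Real.log (∫ x, h x * Real.exp (G.toL2 U x) ∂G.vol) := by
      unfold Geo.J
      field_simp
      ring
    rw [e2, Real.exp_log p]
  rw [e]
  have h1 := continuous_mean G
  have h2 : Continuous fun U : G.H1 => ‖G.toL2 U‖ := G.toL2.continuous.norm
  fun_prop

/-- the derivative in the direction of a smooth function is continuous -/
theorem dir_cont (hE : EXA G) {h : M → ℝ} {lam : ℝ} (hlam : lam ≠ 0)
    (hc : Continuous h) (hpos : ∀ x, 0 < h x) : Continuous (G.J h lam) ∧
    ∀ φ : G.SmH, Continuous fun U : G.H1 => fderiv ℝ (G.J h lam) U (φ : G.H1) := by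
  have hDER : ∀ h' : M → ℝ, Continuous h' → (∀ x, 0 < h' x) → DER G h' lam :=
    fun h' hc' hp' => Asm.t_h1c M G h' lam hE hc' hp'
  have hcont : ∀ h' : M → ℝ, Continuous h' → (∀ x, 0 < h' x) → Continuous (G.J h' lam) := by
    intro h' hc' hp'
    have : Differentiable ℝ (G.J h' lam) := fun U => by
      obtain ⟨D, hD, -⟩ := hDER h' hc' hp' U
      exact hD.differentiableAt
    exact this.continuous
  have hJ := hcont h hc hpos
  -- the formula for the derivative
  have hform : ∀ (U : G.H1) (φ : G.SmH), fderiv ℝ (G.J h lam) U (φ : G.H1) =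
      inner ℝ U (φ : G.H1) - inner ℝ (G.toL2 U) (G.toL2 (φ : G.H1))
      + lam * (∫ x, fn φ x ∂G.vol)
      - lam * (∫ x, h x * Real.exp (G.toL2 U x) * fn φ x ∂G.vol)
          / (∫ x, h x * Real.exp (G.toL2 U x) ∂G.vol) := by
    intro U φ
    obtain ⟨D, hD, hf⟩ := hDER h hc hpos U
    rw [hD.fderiv]
    exact hf φ
  refine ⟨hJ, ?_⟩
  intro φ
  have hφc : Continuous (fn φ) := G.cont _ φ.2
  obtain ⟨K, hK⟩ := (isCompact_range hφc.norm).bddAbove
  have hK' : ∀ x, |fn φ x| ≤ K := fun x => hK ⟨x, rfl⟩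
  set h' : M → ℝ := fun x => h x * (fn φ x + (K + 1)) with hh'
  have hc' : Continuous h' := hc.mul (hφc.add continuous_const)
  have hp' : ∀ x, 0 < h' x := by
    intro x
    have := abs_le.1 (hK' x)
    exact mul_pos (hpos x) (by linarith)
  have hq := continuous_quot G hE hlam hc hpos hc' hp' hJ (hcont h' hc' hp')
  have e : ∀ U : G.H1, (∫ x, h x * Real.exp (G.toL2 U x) * fn φ x ∂G.vol)
        / (∫ x, h x * Real.exp (G.toL2 U x) ∂G.vol) =
      (∫ x, h' x * Real.exp (G.toL2 U x) ∂G.vol) /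
        (∫ x, h x * Real.exp (G.toL2 U x) ∂G.vol) - (K + 1) := by
    intro U
    have p := integral_weight_pos G hE hc hpos U
    have i1 := integrable_weight G hE hc' U
    have i2 := (integrable_weight G hE hc U).const_mul (K + 1)
    have e3 : ∫ x, h x * Real.exp (G.toL2 U x) * fn φ x ∂G.vol =
        (∫ x, h' x * Real.exp (G.toL2 U x) ∂G.vol) -
          (K + 1) * ∫ x, h x * Real.exp (G.toL2 U x) ∂G.vol := by
      rw [← integral_const_mul, ← integral_sub i1 i2]
      congr 1
      funext x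
      simp only [hh']
      ring
    rw [e3, sub_div, mul_div_assoc, div_self p.ne', mul_one]
  have e4 : (fun U : G.H1 => fderiv ℝ (G.J h lam) U (φ : G.H1)) = fun U =>
      inner ℝ U (φ : G.H1) - inner ℝ (G.toL2 U) (G.toL2 (φ : G.H1))
      + lam * (∫ x, fn φ x ∂G.vol)
      - lam * ((∫ x, h' x * Real.exp (G.toL2 U x) ∂G.vol) /
        (∫ x, h x * Real.exp (G.toL2 U x) ∂G.vol) - (K + 1)) := by
    funext U
    rw [hform, mul_div_assoc, e]
  rw [e4]
  have c1 : Continuous fun U : G.H1 => inner ℝ U (φ : G.H1) :=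
    continuous_id.inner continuous_const
  have c2 : Continuous fun U : G.H1 => inner ℝ (G.toL2 U) (G.toL2 (φ : G.H1)) :=
    G.toL2.continuous.inner continuous_const
  exact ((c1.sub c2).add continuous_const).sub (continuous_const.mul (hq.sub continuous_const))

theorem eq_zero_of_dir {D : G.H1 →L[ℝ] ℝ} (h : ∀ φ : G.SmH, D (φ : G.H1) = 0) : D = 0 := by
  have h2 := (UniformSpace.Completion.denseRange_coe (α := G.SmH)).equalizer
    D.continuous (continuous_const (y := (0 : ℝ))) (funext fun φ => h φ)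
  ext x
  exact congrFun h2 x

/-- a limit of normalised almost critical points is a normalised critical point -/
theorem crit_limit (hE : EXA G) {h : M → ℝ} {lam : ℝ} (hlam : lam ≠ 0)
    (hc : Continuous h) (hpos : ∀ x, 0 < h x) {U : ℕ → G.H1} {V : G.H1}
    (hV : Tendsto U atTop (𝓝 V)) (hU : ∀ n, ∫ x, h x * Real.exp (G.toL2 (U n) x) ∂G.vol = 1)
    (hd : Tendsto (fun n => ‖fderiv ℝ (G.J h lam) (U n)‖) atTop (𝓝 0)) :
    ∫ x, h x * Real.exp (G.toL2 V x) ∂G.vol = 1 ∧ fderiv ℝ (G.J h lam) V = 0 := by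
  obtain ⟨hJ, hdir⟩ := dir_cont G hE hlam hc hpos
  constructor
  · have h1 := ((continuous_weight G hE hlam hc hpos hJ).tendsto V).comp hV
    have h2 : (fun n => ∫ x, h x * Real.exp (G.toL2 (U n) x) ∂G.vol) = fun _ => (1 : ℝ) :=
      funext hU
    have h3 : Tendsto (fun n => ∫ x, h x * Real.exp (G.toL2 (U n) x) ∂G.vol) atTop
      (𝓝 (∫ x, h x * Real.exp (G.toL2 V x) ∂G.vol)) := h1
    rw [h2] at h3
    exact tendsto_nhds_unique h3 tendsto_const_nhds
  · apply eq_zero_of_dir
    intro φ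
    have h1 : Tendsto (fun n => fderiv ℝ (G.J h lam) (U n) (φ : G.H1)) atTop
      (𝓝 (fderiv ℝ (G.J h lam) V (φ : G.H1))) := ((hdir φ).tendsto V).comp hV
    have h2 : Tendsto (fun n => fderiv ℝ (G.J h lam) (U n) (φ : G.H1)) atTop (𝓝 0) := by
      apply squeeze_zero_norm (a := fun n => ‖fderiv ℝ (G.J h lam) (U n)‖ * ‖(φ : G.H1)‖)
      · intro n
        exact ContinuousLinearMap.le_opNorm _ _
      · have := hd.mul_const ‖(φ : G.H1)‖
        simpa using this
    exact tendsto_nhds_unique h1 h2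

end Geo

/-- all the statements for every model of the Sobolev space -/
theorem main (M : Type) [TopologicalSpace M]
    [T2Space M] [CompactSpace M] [ConnectedSpace M] [MeasurableSpace M] [BorelSpace M]
    (X : RiemSurface M) (h : M → ℝ) (lam : ℝ) (hh : X.Smooth h) (hpos : ∀ x, 0 < h x)
    (hlam : 0 < lam) (hN : ∀ k : ℕ, lam ≠ 8 * Real.pi * k)
    {H : Type} [NormedAddCommGroup H] [InnerProductSpace ℝ H] (m : Sobolev X H)
    (U : ℕ → H) (hU : ∀ n, ∫ x, h x * Real.exp (m.rep (U n) x) ∂X.vol = 1)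
    (hd0 : Tendsto (fun n => ‖fderiv ℝ (m.J h lam) (U n)‖) atTop (𝓝 0)) :
    ∃ (V : H) (φ : ℕ → ℕ), StrictMono φ ∧ Tendsto (fun k => U (φ k)) atTop (𝓝 V) ∧
      ∫ x, h x * Real.exp (m.rep V x) ∂X.vol = 1 ∧ fderiv ℝ (m.J h lam) V = 0 := by
  have hE : EXA X.geo := Asm.exa_all Results.MP_577350_an.PalaisSmale.isog_all M X
  have hc : Continuous h := X.smooth_cont hh
  have hD : DER X.geo h lam := Asm.t_h1c M X.geo h lam hE hc hpos
  have hd : Differentiable ℝ (X.geo.J h lam) := fun U => by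
    obtain ⟨D, hD, -⟩ := hD U
    exact hD.differentiableAt
  obtain ⟨T, hT⟩ := m.exists_iso
  obtain ⟨h1, h2⟩ := transfer_abs T (m.J_iso T hT h lam) hd
  have hint : ∀ V : X.geo.H1, ∫ x, h x * Real.exp (m.rep (T V) x) ∂X.vol =
      ∫ x, h x * Real.exp (X.geo.toL2 V x) ∂X.geo.vol := by
    intro V
    have hr := m.rep_iso T hT V
    show _ = ∫ x, h x * Real.exp (X.geo.toL2 V x) ∂X.vol
    refine integral_congr_ae ?_
    filter_upwards [hr] with x hx
    rw [hx]
  have hUT : ∀ n, T (T.symm (U n)) = U n := fun n => T.apply_symm_apply _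
  have n1 : ∀ n, ∫ x, h x * Real.exp (X.geo.toL2 (T.symm (U n)) x) ∂X.geo.vol = 1 := by
    intro n
    rw [← hint, hUT]
    exact hU n
  have n2 : Tendsto (fun n => ‖fderiv ℝ (X.geo.J h lam) (T.symm (U n))‖) atTop (𝓝 0) :=
    hd0.congr fun n => by rw [← h2, hUT]
  obtain ⟨V, φ, hφ, hV⟩ := geo_sub M X h lam hh hpos hlam hN (fun n => T.symm (U n)) n1
    (Sobolev.tendsto_zero_of_norm _ n2)
  obtain ⟨c1, c2⟩ := crit_limit X.geo hE hlam.ne' hc hpos hV (fun k => n1 (φ k))
    (n2.comp hφ.tendsto_atTop)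
  refine ⟨T V, φ, hφ, ?_, by rw [hint]; exact c1, ?_⟩
  · have := (T.continuous.tendsto V).comp hV
    refine this.congr fun k => ?_
    exact hUT (φ k)
  · have h3 := h2 V
    rw [c2] at h3
    exact (ContinuousLinearMap.opNorm_zero_iff _).1 (h3.trans ContinuousLinearMap.opNorm_zero)

end Pool.Agent.H10.PS
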